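import Mathlib

set_option autoImplicit false

namespace Pool.Agent.Results.MP_ea20df_gt.Small

open Set Filter Topology Cardinal TopologicalSpace

universe u

/-- every continuous real function is bounded -/
def Pseudocompact (X : Type u) [TopologicalSpace X] : Prop :=
  ∀ f : X → ℝ, Continuous f → ∃ M, ∀ x, |f x| ≤ M

def LocPseudocompact (X : Type u) [TopologicalSpace X] : Prop :=
  ∀ x : X, ∃ O, IsOpen O ∧ x ∈ O ∧ Pseudocompact (closure O)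

def CCFamily {X : Type u} (ℬ : Set (Set X)) : Prop :=
  ∀ F : ℕ → Set X, (∀ n, F n ∈ ℬ) → (∀ n, F (n + 1) ⊆ F n) → (⋂ n, F n).Nonempty

def Pseudobase {X : Type u} [TopologicalSpace X] (ℬ : Set (Set X)) : Prop :=
  (∀ B ∈ ℬ, (interior B).Nonempty) ∧ ∀ U, IsOpen U → U.Nonempty → ∃ B ∈ ℬ, B ⊆ U

def Oxtoby (X : Type u) [TopologicalSpace X] : Prop :=
  ∃ ℬ : Set (Set X), Pseudobase ℬ ∧ (∀ B ∈ ℬ, IsOpen B) ∧ CCFamily ℬ

def Telgarsky (X : Type u) [TopologicalSpace X] : Prop :=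
  ∃ ℬ : Set (Set X), IsTopologicalBasis ℬ ∧ CCFamily ℬ

variable {X : Type u} [TopologicalSpace X]

lemma feeble [T35Space X] {O : Set X} (h : Pseudocompact (closure O)) {F : ℕ → Set X} (a : Antitone F)
    (o : ∀ n, IsOpen (F n)) (ne : ∀ n, (F n).Nonempty) (s : F 0 ⊆ O) : ∃ x, ∀ n, x ∈ closure (F n) := by
  by_contra! e
  choose x hx using ne
  choose g g1 g2 g3 using fun n => CompletelyRegularSpace.completely_regular (x n) _
    (o n).isClosed_compl (not_not.2 (hx n))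
  have l : LocallyFinite fun n : ℕ => Function.support fun y => (n : ℝ) * (1 - g n y) := fun y => by
    obtain ⟨m, hm⟩ := e y
    refine ⟨_, isClosed_closure.isOpen_compl.mem_nhds hm, (finite_lt_nat m).subset fun n ⟨z, z1, z2⟩ => ?_⟩
    by_contra k
    exact z1 (by simp [g3 n (show z ∈ (F n)ᶜ from fun q => z2 (subset_closure (a (not_lt.1 k) q)))])
  obtain ⟨M, hM⟩ := h _ ((continuous_finsum (fun n => by have := g1 n; fun_prop) l).comp continuous_subtype_val)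
  obtain ⟨n, hn⟩ := exists_nat_gt M
  have := (single_le_finsum n (l.point_finite (x n)) fun j =>
    mul_nonneg (Nat.cast_nonneg j) (sub_nonneg.2 (g j (x n)).2.2)).trans
      ((le_abs_self _).trans (hM ⟨x n, subset_closure (s (a n.zero_le (hx n)))⟩))
  simp [g2 n] at this
  linarith

lemma core [T35Space X] {J : Type u} (hJ : #J ≤ 𝔠) {f : J → X → ℝ} (c : ∀ j, Continuous (f j))
    (ne : ∀ j, ∃ x, f j x < 1 / 2) (p : ∀ j, ∃ O, Pseudocompact (closure O) ∧ f j ⁻¹' Iio 1 ⊆ O) :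
    ∃ r : J → ℝ, (∀ j, r j ∈ Ioo (1 / 2) 1) ∧ CCFamily (range fun j => f j ⁻¹' Iio (r j)) := by
  obtain ⟨_, _, w⟩ := exists_ord_eq_type_lt J
  have st : ∀ i (g : ∀ j, j < i → ℝ), ∃ b ∈ Ioo (1 / 2 : ℝ) 1, ∀ j hj, f i ⁻¹' Iio b ⊆ f j ⁻¹' Iio (g j hj) →
      closure (f i ⁻¹' Iio b) ⊆ f j ⁻¹' Iio (g j hj) := fun i g => by
    by_contra! e
    choose k k1 k2 k3 using fun b : Ioo (1 / 2 : ℝ) 1 => e b b.2
    have q : ∀ a b, a < b → k a ≠ k b := fun a b l e => by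
      have e1 : f (k b) ⁻¹' Iio (g _ (k1 b)) = f (k a) ⁻¹' Iio (g _ (k1 a)) := 
        congrArg (fun t : Iio i => f t ⁻¹' Iio (g t t.2)) (Subtype.ext e.symm : (⟨k b, k1 b⟩ : Iio i) = ⟨k a, k1 a⟩)
      exact k3 a ((closure_minimal (preimage_mono Iio_subset_Iic_self) (isClosed_Iic.preimage (c i))).trans
        ((preimage_mono (Iic_subset_Iio.2 (show a.1 < b.1 from l))).trans ((k2 b).trans e1.le)))
    have := lift_mk_le_lift_mk_of_injective (f := fun b => (⟨k b, k1 b⟩ : Iio i)) fun a b e => by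
      have e := congrArg Subtype.val e
      rcases lt_trichotomy a b with l | l | l
      exacts [(q a b l e).elim, l, (q b a l e.symm).elim]
    rw [mk_Ioo_real (by norm_num), lift_continuum, lift_uzero] at this
    exact ((mk_Iio_lt i w).trans_le hJ).not_ge this
  choose s s1 s2 using st
  let r : J → ℝ := wellFounded_lt.fix s
  have e : ∀ i, r i = s i fun j _ => r j := fun i => wellFounded_lt.fix_eq s i
  have r1 : ∀ i, r i ∈ Ioo (1 / 2 : ℝ) 1 := fun i => e i ▸ s1 i _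
  refine ⟨r, r1, fun F hF d => ?_⟩
  have a : Antitone F := antitone_nat_of_succ_le d
  choose i hi using hF
  have ne' : ∀ n, (F n).Nonempty := fun n => (ne (i n)).imp fun x hx => hi n ▸ hx.trans (r1 _).1
  by_cases z : ∃ n, ∀ m ≥ n, i m = i n
  · obtain ⟨n, hn⟩ := z
    refine (ne' n).mono (subset_iInter fun m => (le_total m n).elim (a ·) fun l => ?_)
    rw [← hi m, ← hi n, hn m l]
  push Not at z
  obtain ⟨O, o1, o2⟩ := p (i 0)
  obtain ⟨x, hx⟩ := feeble o1 a (fun n => hi n ▸ isOpen_Iio.preimage (c _)) ne'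
    (hi 0 ▸ (preimage_mono (Iio_subset_Iio (r1 _).2.le)).trans o2)
  refine ⟨x, mem_iInter.2 fun n => ?_⟩
  obtain ⟨_, ⟨k, k1, rfl⟩, k2⟩ := wellFounded_lt.has_min (i '' Ici n) ⟨_, n, self_mem_Ici, rfl⟩
  obtain ⟨m, m1, m2⟩ := z k
  have := s2 (i m) (fun j _ => r j) (i k) (lt_of_le_of_ne (not_lt.1 (k2 _ ⟨m, le_trans k1 m1, rfl⟩)) m2.symm)
  rw [← e] at this
  have t := a m1
  have y := hx m
  rw [← hi m] at t y
  rw [← hi k] at t
  exact a k1 (hi k ▸ this t y)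

lemma fn [T35Space X] (h : LocPseudocompact X) {U : Set X} (o : IsOpen U) {x : X} (hx : x ∈ U) :
    ∃ O, IsOpen O ∧ x ∈ O ∧ O ⊆ U ∧ (∃ P, Pseudocompact (closure P) ∧ O ⊆ P) := by
  obtain ⟨P, p1, p2, p3⟩ := h x
  exact ⟨U ∩ P, o.inter p1, ⟨hx, p2⟩, inter_subset_left, P, p3, inter_subset_right⟩

lemma ur [T35Space X] {W : Set X} (o : IsOpen W) {x : X} (hx : x ∈ W) :
    ∃ f : X → ℝ, Continuous f ∧ f x < 1 / 2 ∧ f ⁻¹' Iio 1 ⊆ W := by
  obtain ⟨g, g1, g2, g3⟩ := CompletelyRegularSpace.completely_regular x _ o.isClosed_compl (not_not.2 hx)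
  exact ⟨fun y => g y, by fun_prop, by simp [g2], fun y hy => by_contra fun k => by simp [g3 k] at hy⟩

theorem result (X : Type u) [TopologicalSpace X] [T35Space X] (h : LocPseudocompact X) :
    ((∃ 𝒲 : Set (Set X), IsTopologicalBasis 𝒲 ∧ #𝒲 ≤ 𝔠) → Telgarsky X) ∧
    ((∃ 𝒲 : Set (Set X), Pseudobase 𝒲 ∧ #𝒲 ≤ 𝔠) → Oxtoby X) := by
  refine ⟨fun ⟨𝒲, b, k⟩ => ?_, fun ⟨𝒲, b, k⟩ => ?_⟩
  · let J := {q : 𝒲 × 𝒲 // ∃ f : X → ℝ, Continuous f ∧ q.1.1.Nonempty ∧ q.1.1 ⊆ f ⁻¹' Iio (1 / 2) ∧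
      f ⁻¹' Iio 1 ⊆ q.2.1 ∧ ∃ P, Pseudocompact (closure P) ∧ q.2.1 ⊆ P}
    choose f f1 f2 f3 f4 f5 using fun j : J => j.2
    obtain ⟨r, r1, r2⟩ := core (J := J) ((mk_subtype_le _).trans (by
      rw [mk_prod, lift_id]; exact (mul_le_mul' k k).trans_eq continuum_mul_self)) f1
      (fun j => (f2 j).imp fun x hx => f3 j hx) fun j => (f5 j).imp fun P hP => ⟨hP.1, (f4 j).trans hP.2⟩
    refine ⟨_, isTopologicalBasis_of_isOpen_of_nhds ?_ fun x U hx o => ?_, r2⟩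
    · rintro _ ⟨j, rfl⟩; exact isOpen_Iio.preimage (f1 j)
    obtain ⟨O, o1, o2, o3, P, p1, p2⟩ := fn h o hx
    obtain ⟨W, w1, w2, w3⟩ := b.exists_subset_of_mem_open o2 o1
    obtain ⟨g, g1, g2, g3⟩ := ur (b.isOpen w1) w2
    obtain ⟨V, v1, v2, v3⟩ := b.exists_subset_of_mem_open (show x ∈ g ⁻¹' Iio (1 / 2) from g2)
      (isOpen_Iio.preimage g1)
    let j : J := ⟨(⟨V, v1⟩, ⟨W, w1⟩), g, g1, ⟨x, v2⟩, v3, g3, P, p1, w3.trans p2⟩
    exact ⟨_, ⟨j, rfl⟩, lt_trans (f3 j v2) (r1 j).1,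
      (preimage_mono (Iio_subset_Iio (r1 j).2.le)).trans ((f4 j).trans (w3.trans o3))⟩
  · have a : ∀ W : 𝒲, ∃ f : X → ℝ, Continuous f ∧ (∃ x, f x < 1 / 2) ∧ f ⁻¹' Iio 1 ⊆ W ∧
        ∃ P, Pseudocompact (closure P) ∧ f ⁻¹' Iio 1 ⊆ P := fun W => by
      obtain ⟨x, hx⟩ := b.1 W W.2
      obtain ⟨O, o1, o2, o3, P, p1, p2⟩ := fn h isOpen_interior hx
      obtain ⟨g, g1, g2, g3⟩ := ur o1 o2
      exact ⟨g, g1, ⟨x, g2⟩, g3.trans (o3.trans interior_subset), P, p1, g3.trans p2⟩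
    choose f f1 f2 f3 f4 using a
    obtain ⟨r, r1, r2⟩ := core k f1 f2 f4
    refine ⟨_, ⟨?_, fun U o n => ?_⟩, ?_, r2⟩
    · rintro _ ⟨j, rfl⟩
      rw [(isOpen_Iio.preimage (f1 j)).interior_eq]
      exact (f2 j).imp fun x hx => hx.trans (r1 j).1
    · obtain ⟨W, w1, w2⟩ := b.2 U o n
      exact ⟨_, ⟨⟨W, w1⟩, rfl⟩, (preimage_mono (Iio_subset_Iio (r1 _).2.le)).trans ((f3 _).trans w2)⟩
    · rintro _ ⟨j, rfl⟩; exact isOpen_Iio.preimage (f1 j)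

end Pool.Agent.Results.MP_ea20df_gt.Small
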